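import Pool.Agent.Work.MP_ee1cd8_co_helper2.Final

/-!
# The closed unit square and the closed isosceles right triangle of area 1: `3 ≤ N ≤ 4`
-/

namespace Pool.Agent.Results.MP_ee1cd8_co.ThreeOrFour

open Pool.Agent.Work.MP_ee1cd8_co_helper2

/-- The closed square and the closed isosceles right triangle of the same area are not
equidecomposable using two pieces, they are equidecomposable using four pieces, and so the least
number of pieces is `3` or `4`. -/
theorem result :
    ¬ Equidecomposable 2 unitSquare rightTriangle ∧ Equidecomposable 4 unitSquare rightTriangle ∧
      (leastPieces = 3 ∨ leastPieces = 4) :=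
  ⟨not_two, four, bounds⟩

end Pool.Agent.Results.MP_ee1cd8_co.ThreeOrFour
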